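import Pool.Agent.LibNewton.Defs
import Pool.Agent.LibNewton.NoH

/-!
No non-constant `R = a (1 + P/(QP + P'))` with `a ≠ 0`, `P` with only simple zeros and `Q ≠ 0`
shares the value `a` with its derivative in the plane.
-/

open Polynomial Filter Topology

namespace Pool.Agent.Results.MP_db5e86_an.NotShared

open Pool.Agent.LibNewton

theorem result (a : ℂ) (ha : a ≠ 0) (P Q : ℂ[X])
    (hP : ∀ z, P.eval z = 0 → (derivative P).eval z ≠ 0) (hQ : Q ≠ 0)
    (hR : ¬ ∃ c : ℂ, ∀ z, (den P Q).eval z ≠ 0 → ratFun a P Q z = c) :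
    ¬ SharesWithDeriv (ratFun a P Q) a := by
  intro hshare
  have hP0 : P ≠ 0 := by
    rintro rfl
    exact hP 0 (by simp) (by simp)
  set D := den P Q with hDdef
  have hD : D = Q * P + derivative P := rfl
  -- the denominator has a zero
  have hroot : ∃ y, D.eval y = 0 := by
    by_contra hno
    have hdeg0 : D.degree ≤ 0 := by
      by_contra hlt
      obtain ⟨y, hy⟩ := Complex.exists_root (not_le.1 hlt)
      exact hno ⟨y, hy⟩
    have hQP : Q * P ≠ 0 := mul_ne_zero hQ hP0
    have hle : P.degree ≤ (Q * P).degree := by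
      rw [mul_comm]; exact degree_le_mul_left P hQ
    have hdeg : (derivative P).degree < (Q * P).degree := (degree_derivative_lt hP0).trans_le hle
    have hDd : D.degree = (Q * P).degree := by
      rw [hD]; exact degree_add_eq_left_of_degree_lt hdeg
    have hPd : P.degree ≤ 0 := hle.trans (hDd ▸ hdeg0)
    apply hR
    refine ⟨ratFun a P Q 0, fun z _ => ?_⟩
    unfold ratFun
    rw [← hDdef, eq_C_of_degree_le_zero hdeg0, eq_C_of_degree_le_zero hPd]
    simp
  obtain ⟨zs, hzs⟩ := hroot
  refine no_H P Q D hP hQ hD hzs fun z hz => ?_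
  by_contra hcon
  push Not at hcon
  obtain ⟨hPz, hDz⟩ := hcon
  -- derivative of `R`
  have hder : ∀ w, D.eval w ≠ 0 → HasDerivAt (ratFun a P Q)
      (a * (1 - P.eval w * (Q * D + derivative D).eval w / D.eval w ^ 2)) w := by
    intro w hw
    have h1 : HasDerivAt (ratFun a P Q)
        (a * ((((derivative P).eval w * D.eval w - P.eval w * (derivative D).eval w) /
          D.eval w ^ 2))) w := by
      unfold ratFun
      exact ((((P.hasDerivAt w).div (D.hasDerivAt w) hw)).const_add 1).const_mul a
    convert h1 using 2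
    have e : (derivative P).eval w = D.eval w - Q.eval w * P.eval w := by rw [hD]; simp
    rw [e, eval_add, eval_mul]
    field_simp
    ring
  have hopen : ∀ᶠ w in 𝓝 z, D.eval w ≠ 0 :=
    (D.continuous.continuousAt).eventually_ne hDz
  have h1 : ¬ TakesValueAt (ratFun a P Q) a z := by
    intro ht
    have hc : Tendsto (ratFun a P Q) (𝓝[≠] z) (𝓝 (ratFun a P Q z)) :=
      (hder z hDz).continuousAt.tendsto.mono_left nhdsWithin_le_nhds
    have heq := tendsto_nhds_unique ht hc
    unfold ratFun at heq
    have h2 : a * (P.eval z / D.eval z) = 0 := by linear_combination -heq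
    rcases mul_eq_zero.1 h2 with h | h
    · exact ha h
    · exact (div_ne_zero hPz hDz) h
  apply h1
  rw [hshare z]
  have hcont : ContinuousAt
      (fun w => a * (1 - P.eval w * (Q * D + derivative D).eval w / D.eval w ^ 2)) z := by
    have c1 : ContinuousAt (fun w => P.eval w) z := P.continuous.continuousAt
    have c2 : ContinuousAt (fun w => (Q * D + derivative D).eval w) z :=
      (Q * D + derivative D).continuous.continuousAt
    have c3 : ContinuousAt (fun w => D.eval w ^ 2) z := (D.continuous.continuousAt).pow 2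
    exact continuousAt_const.mul (continuousAt_const.sub ((c1.mul c2).div c3 (pow_ne_zero 2 hDz)))
  have hval : a * (1 - P.eval z * (Q * D + derivative D).eval z / D.eval z ^ 2) = a := by
    rw [hz]; simp
  have ht : Tendsto (fun w => a * (1 - P.eval w * (Q * D + derivative D).eval w / D.eval w ^ 2))
      (𝓝 z) (𝓝 a) := by
    have := hcont.tendsto
    rwa [hval] at this
  refine (ht.mono_left nhdsWithin_le_nhds).congr' ?_
  have hev : ∀ᶠ w in 𝓝[≠] z, D.eval w ≠ 0 := hopen.filter_mono nhdsWithin_le_nhds
  filter_upwards [hev] with w hw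
  exact ((hder w hw).deriv).symm

end Pool.Agent.Results.MP_db5e86_an.NotShared
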